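import Pool.Agent.N179.FO.Defs

/-!
# Generalized Tate classes: definitions
-/

set_option autoImplicit false

open CategoryTheory AlgebraicGeometry TensorProduct

universe u v w

namespace Pool.Agent.N179.ST

open Pool.Agent.N179.FO

section Alg

variable {K : Type v} [Field K] {A : Type v} [Ring A] [Algebra K A] {M : Type v}
  [AddCommGroup M] [Module K M] {Γ : Type w} [Group Γ]

/-- The generalized Tate classes of codimension `j`: the class `0`, and the classes `c` such that
`g c - χ(g)^j c` is a generalized Tate class for all `g` in a subgroup of finite index. -/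
inductive GenTate (χ : Γ →* Kˣ) (ρ : Γ →* (A ≃ₐ[K] A)) (τ : LinAct K M Γ) (j : ℕ) :
    A ⊗[K] M → Prop
  | zero : GenTate χ ρ τ j 0
  | step (c : A ⊗[K] M) (Δ : Subgroup Γ) : Δ.FiniteIndex →
      (∀ g ∈ Δ, GenTate χ ρ τ j (tact ρ τ g c - (χ g : K) ^ j • c)) → GenTate χ ρ τ j c

/-- All generalized Tate classes of degree `2 * j` and codimension `j` are in `C j`, for all `j`. -/
def StrongAct (χ : Γ →* Kˣ) (grA : ℕ → Submodule K A) (grM : ℕ → Submodule K M)
    (ρ : Γ →* (A ≃ₐ[K] A)) (τ : LinAct K M Γ) (C : Subs K A M) : Prop :=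
  ∀ j, ∀ c ∈ tensDeg grA grM (2 * j), GenTate χ ρ τ j c → c ∈ C j

end Alg

open Pool.Agent.H914 Pool.Agent.H914.VarClass Pool.Agent.H914.VarClass.Obj
  Pool.Agent.H914.WeilCohomology Pool.Agent.TH125.Gal

variable {k : Type u} [Field k] {𝒱 : VarClass k} {ops : CycleOps 𝒱}
  {W : WeilCohomology.{u, v} ops} {Γ : Type w} [Group Γ]

/-- The strong Tate conjecture for `V × U`: all generalized Tate classes in `H^(2 j)(V × U)` are
combinations of the classes of the cycles of codimension `j` on `V × U`, for all `j`. -/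
def StrongTate (χ : Γ →* W.Kˣ) (V : GVar W Γ) (U : AnyVar W Γ) : Prop :=
  StrongAct χ (W.gr V.X) U.gr V.act U.act (U.cyc V.X)

end Pool.Agent.N179.ST
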