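import Pool.Agent.N179.ST.Defs
import Pool.Agent.N179.FO.Fin

/-!
# The strong Tate conjecture for products of K3 surfaces with arbitrary varieties
-/

set_option autoImplicit false
set_option linter.unusedSectionVars false

open CategoryTheory AlgebraicGeometry NumberField
open scoped TensorProduct

universe u v w

namespace Pool.Agent.N179.ST

open Pool.Agent.H914 Pool.Agent.H914.VarClass Pool.Agent.H914.VarClass.Obj
  Pool.Agent.H914.WeilCohomology Pool.Agent.H281R3.HT Pool.Agent.TH125.Gal Pool.Agent.N179.TL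
  Pool.Agent.N179.FG Pool.Agent.W552 Pool.Agent.TH121.KT Pool.Agent.W517.K3 Pool.Agent.N179.FO

section alg

variable {K : Type v} [Field K] {A B : Type v} [Ring A] [Algebra K A] [Ring B] [Algebra K B]
  {M : Type v} [AddCommGroup M] [Module K M] {Γ : Type w} [Group Γ] {χ : Γ →* Kˣ}
  {ρ : Γ →* (A ≃ₐ[K] A)} {σ : Γ →* (B ≃ₐ[K] B)} {τ : LinAct K M Γ} {j : ℕ}

theorem GenTate.smul {c : A ⊗[K] M} (h : GenTate χ ρ τ j c) (a : K) :
    GenTate χ ρ τ j (a • c) := by
  induction h with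
  | zero => rw [smul_zero]; exact GenTate.zero
  | step c Δ hΔ _ ih =>
    refine GenTate.step _ Δ hΔ fun g hg => ?_
    have h1 : tact ρ τ g (a • c) - (χ g : K) ^ j • a • c =
        a • (tact ρ τ g c - (χ g : K) ^ j • c) := by
      rw [map_smul, smul_sub, smul_comm]
    rw [h1]
    exact ih g hg

/-- the image under a twisted equivariant map -/
theorem GenTate.map {c : A ⊗[K] M} (h : GenTate χ ρ τ j c) {i : ℕ}
    (f : A ⊗[K] M →ₗ[K] B ⊗[K] M) (Δ₀ : Subgroup Γ) (hΔ₀ : Δ₀.FiniteIndex) {l : ℕ}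
    (hil : i + l = j)
    (hf : ∀ g ∈ Δ₀, ∀ c, f (tact ρ τ g c) = (χ g : K) ^ l • tact σ τ g (f c)) :
    GenTate χ σ τ i (f c) := by
  induction h with
  | zero => rw [map_zero]; exact GenTate.zero
  | step c Δ hΔ _ ih =>
    refine GenTate.step _ (Δ ⊓ Δ₀) inferInstance fun g hg => ?_
    have h1 := (ih g hg.1).smul (((χ g : K) ^ l)⁻¹)
    have h2 : ((χ g : K) ^ l)⁻¹ • f (tact ρ τ g c - (χ g : K) ^ j • c) =
        tact σ τ g (f c) - (χ g : K) ^ i • f c := by
      have h3 : (χ g : K) ^ l ≠ 0 := pow_ne_zero _ (Units.ne_zero _)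
      rw [map_sub, map_smul, hf g hg.2, ← hil, pow_add, mul_comm, mul_smul, smul_sub,
        inv_smul_smul₀ h3, inv_smul_smul₀ h3]
    rw [h2] at h1
    exact h1

end alg

variable {k : Type u} [Field k] {𝒱 : VarClass k} {ops : CycleOps 𝒱}
  {W : WeilCohomology.{u, v} ops} {Γ : Type w} [Group Γ] {χ : Γ →* W.Kˣ}
  {F : Γ} {p m : ℕ} [Fact p.Prime]

section step

variable {X Y : GVar W Γ} {U : AnyVar W Γ}
  {υ : Γ →* (W.H (X.X.prod Y.X) ≃ₐ[W.K] W.H (X.X.prod Y.X))}
  {E : Type} [Field E] [NumberField E] {α : E} {h b n : ℕ}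

/-- the classes all of whose contractions are algebraic -/
noncomputable def good (hDX : HomEqNum W X.X) (Y : GVar W Γ) (U : AnyVar W Γ) :
    Submodule W.K (W.H (X.X.prod Y.X) ⊗[W.K] U.M) where
  carrier := {z | ∀ ψ : Module.Dual W.K (W.H Y.X ⊗[W.K] U.M),
    pT hDX (ctrN ψ (theta W X.X Y.X U.M z)) = 0}
  add_mem' := fun {x y} hx hy ψ => by rw [map_add, map_add, map_add, hx ψ, hy ψ, add_zero]
  zero_mem' := fun ψ => by rw [map_zero, map_zero, map_zero]
  smul_mem' := fun a x hx ψ => by rw [map_smul, map_smul, map_smul, hx ψ, smul_zero]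

theorem contract_gen [IsAlgClosed W.K] (hX : HasK3Reduction χ F p m X α h b n)
    (h1 : Intertwines (W.map (fst X.X Y.X)) X.act υ)
    (h2 : Intertwines (W.map (snd X.X Y.X)) Y.act υ)
    (hno : ∀ (μ ν : W.K) (j : ℕ), (∃ x ∈ transcendental W X.X, IsEig X.act F μ x) →
      Module.End.HasEigenvalue (tact Y.act U.act F) ν → RootEq (μ * ν) ((χ F : W.K) ^ j) →
        ∃ D : ℕ, RootEq μ (((p : W.K) ^ m) ^ D))
    {j : ℕ} {c : W.H (X.X.prod Y.X) ⊗[W.K] U.M} (hc : GenTate χ υ U.act j c) :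
    c ∈ good hX.homEqNum Y U := by
  induction hc with
  | zero => exact Submodule.zero_mem _
  | step c Δ hΔ _ ih =>
    intro ψ
    exact contract hX h1 h2 hno (R := good hX.homEqNum Y U) (j := j) (fun z hz ψ => hz ψ) hΔ ih ψ

/-- **One step.** -/
theorem stepS [IsAlgClosed W.K] (hX : HasK3Reduction χ F p m X α h b n)
    (h1 : Intertwines (W.map (fst X.X Y.X)) X.act υ)
    (h2 : Intertwines (W.map (snd X.X Y.X)) Y.act υ)
    (hno : ∀ (μ ν : W.K) (j : ℕ), (∃ x ∈ transcendental W X.X, IsEig X.act F μ x) →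
      Module.End.HasEigenvalue (tact Y.act U.act F) ν → RootEq (μ * ν) ((χ F : W.K) ^ j) →
        ∃ D : ℕ, RootEq μ (((p : W.K) ^ m) ^ D))
    (hT : StrongTate χ Y U) : StrongTate χ (⟨X.X.prod Y.X, υ⟩ : GVar W Γ) U := by
  have hG : IsGalois W χ X.X X.act := isGalois hX.galois
  obtain ⟨s⟩ := exists_SB hX.homEqNum
  obtain ⟨Δ', hΔ', hfix⟩ := exists_fix hG s
  rintro j c hcj hc
  have hK := contract_gen hX h1 h2 hno hc
  change c ∈ U.cyc (X.X.prod Y.X) j
  rw [expandM s c, Fintype.sum_sum_type]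
  refine Submodule.add_mem _ (Submodule.sum_mem _ fun l _ => ?_)
    (Submodule.sum_mem _ fun i _ => ?_)
  swap
  · rw [KM_inr hX.homEqNum s i hK, map_zero, map_zero]
    exact Submodule.zero_mem _
  have hdeg := KM_deg s l hcj
  by_cases hjl : s.jC l ≤ j
  · rw [if_pos (by omega), show 2 * j - 2 * s.jC l = 2 * (j - s.jC l) by omega] at hdeg
    have hx : KM s Y.X U.M (Sum.inl l) c ∈ U.cyc Y.X (j - s.jC l) :=
      hT _ _ hdeg (hc.map (KM s Y.X U.M (Sum.inl l)) Δ' hΔ' (Nat.sub_add_cancel hjl)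
        fun g hg c => KM_act hG h1 h2 s l (hfix g hg) c)
    have h5 := mul_span (U := U) (map_span (fst X.X Y.X) (Submodule.subset_span (s.alg l)))
      (U.pull (snd X.X Y.X) _ _ hx)
    rw [Nat.add_sub_cancel' hjl] at h5
    rw [s.e_inl]
    exact h5
  · rw [if_neg (by omega), Submodule.mem_bot] at hdeg
    rw [hdeg, map_zero, map_zero]
    exact Submodule.zero_mem _

/-- The converse. -/
theorem convS (hDX : HomEqNum W X.X) (hone : (1 : W.H X.X) ≠ 0)
    (h2 : Intertwines (W.map (snd X.X Y.X)) Y.act υ)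
    (hT : StrongTate χ (⟨X.X.prod Y.X, υ⟩ : GVar W Γ) U) : StrongTate χ Y U := by
  rintro j c hcj hc
  have h3 : (W.map (snd X.X Y.X)).toLinearMap.rTensor U.M c ∈
      tensDeg (W.gr (X.X.prod Y.X)) U.gr (2 * j) := by
    clear hc
    induction hcj using Submodule.span_induction with
    | mem c hc =>
      obtain ⟨a, b, hab, x, hx, y, hy, rfl⟩ := hc
      rw [LinearMap.rTensor_tmul]
      exact Submodule.subset_span ⟨a, b, hab, _, W.map_mem _ hx, y, hy, rfl⟩
    | zero => rw [map_zero]; exact Submodule.zero_mem _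
    | add x y _ _ hx hy => rw [map_add]; exact Submodule.add_mem _ hx hy
    | smul q x _ hx => rw [map_smul]; exact Submodule.smul_mem _ _ hx
  have h4 := hT j _ h3 (hc.map ((W.map (snd X.X Y.X)).toLinearMap.rTensor U.M) ⊤ inferInstance
    (l := 0) (add_zero j) fun g _ c => by
      rw [pow_zero, one_smul]
      exact (snd_act h2 g c).symm)
  obtain ⟨a, ha, ha0⟩ := exists_pt hDX hone
  have h5 := U.push X.X Y.X j _ (U.mul _ _ _ _ (alg_map (fst X.X Y.X) ha) _ h4)
  rw [push_mul_snd] at h5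
  exact (Submodule.smul_mem_iff _ ha0).1 h5

end step

section tower

variable {r : ℕ} {E : Fin r → Type} [∀ i, Field (E i)] [∀ i, NumberField (E i)]
  [∀ i, IsCMField (E i)] {α : ∀ i, E i} {h b n : Fin r → ℕ} {X : Fin r → GVar W Γ} {Z : GVar W Γ}
  {G : Set ℚ} {U : AnyVar W Γ}

/-- **The strong Tate conjecture for the products with an arbitrary variety.** -/
theorem tower_strong [IsAlgClosed W.K] (hm : 0 < m) (hχ : (χ F : W.K) = (p : W.K) ^ m)
    (hX : ∀ i, HasK3Reduction χ F p m (X i) (α i) (h i) (b i) (n i))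
    (hA : Admissible G h b (fun i => Module.finrank ℚ (E i) / 2)
      (fun i => localDegree p (α i)) n) (hU : SlopesTimes F p m G Z U)
    {S : Finset (Fin r)} {Y : GVar W Γ} (hY : Tower X Z S Y) :
    StrongTate χ Y U ↔ StrongTate χ Z U := by
  induction hY with
  | base => exact Iff.rfl
  | @step S Y i υ hY hi h1 h2 ih =>
    rw [← ih]
    exact ⟨convS (hX i).homEqNum (hX i).one_ne h2,
      stepS (hX i) h1 h2 (hno_tower hm hχ hX hA hU hY hi)⟩

end tower

end Pool.Agent.N179.ST
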